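import Pool.Agent.H93.EN.Targets4

set_option autoImplicit false
set_option linter.unusedVariables false

namespace Pool.Agent.H34.EN

open MeasureTheory Set Metric Filter Topology Pool.Agent.H93.EN
open Pool.Agent.H93.BL hiding T_B1 T_B2 T_B3 T_SB T_SC

open Classical in
/-- the indicator function of the angles with small sine -/
noncomputable def arcH (t φ : ℝ) : ℝ := if |Real.sin φ| ≤ t then 1 else 0

theorem arcH_meas (t : ℝ) : Measurable (arcH t) := by
  unfold arcH
  refine Measurable.ite ?_ measurable_const measurable_const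
  exact measurableSet_le (Real.measurable_sin.abs) measurable_const

theorem arcH_bd (t φ : ℝ) : 0 ≤ arcH t φ ∧ arcH t φ ≤ 1 := by
  unfold arcH
  split_ifs <;> constructor <;> norm_num

theorem arcH_per (t : ℝ) : Function.Periodic (arcH t) Real.pi := by
  intro φ
  unfold arcH
  rw [Real.sin_add_pi, abs_neg]

theorem arcH_int (t a b : ℝ) : IntervalIntegrable (arcH t) volume a b := by
  have h1 : IntervalIntegrable (fun _ : ℝ => (1 : ℝ)) volume a b := intervalIntegrable_const
  refine h1.mono_fun (arcH_meas t).aestronglyMeasurable ?_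
  refine Filter.Eventually.of_forall fun φ => ?_
  have h2 := arcH_bd t φ
  beta_reduce
  rw [Real.norm_eq_abs, abs_of_nonneg h2.1, norm_one]
  exact h2.2

theorem arcH_half (t : ℝ) (ht : 0 ≤ t) (ht1 : t ≤ 1) :
    ∫ φ in (-(Real.pi / 2))..(Real.pi / 2), arcH t φ ≤ Real.pi * t := by
  have hpi := Real.pi_pos
  set c : ℝ := Real.pi / 2 * t with hc
  have hc0 : 0 ≤ c := by positivity
  have hc1 : c ≤ Real.pi / 2 := by
    rw [hc]
    calc Real.pi / 2 * t ≤ Real.pi / 2 * 1 := by gcongr
      _ = Real.pi / 2 := mul_one _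
  have hout : ∀ φ, c < |φ| → |φ| ≤ Real.pi / 2 → arcH t φ = 0 := by
    intro φ h1 h2
    unfold arcH
    rw [if_neg]
    rw [not_le]
    have h3 : |Real.sin φ| = Real.sin |φ| := by
      rcases le_total 0 φ with h | h
      · rw [abs_of_nonneg h] at h2 ⊢
        exact abs_of_nonneg (Real.sin_nonneg_of_nonneg_of_le_pi h (by linarith))
      · rw [abs_of_nonpos h] at h2 ⊢
        rw [Real.sin_neg]
        exact abs_of_nonpos (Real.sin_nonpos_of_nonpos_of_neg_pi_le h (by linarith))
    rw [h3]
    have h4 := Real.mul_le_sin (abs_nonneg φ) h2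
    have h5 : 2 / Real.pi * c = t := by
      rw [hc]
      field_simp
    calc t = 2 / Real.pi * c := h5.symm
      _ < 2 / Real.pi * |φ| := by gcongr
      _ ≤ Real.sin |φ| := h4
  have e1 : ∫ φ in (-(Real.pi / 2))..(-c), arcH t φ = 0 := by
    rw [intervalIntegral.integral_of_le (by linarith), integral_Ioc_eq_integral_Ioo]
    apply setIntegral_eq_zero_of_forall_eq_zero
    intro φ hφ
    apply hout
    · rw [abs_of_nonpos (by linarith [hφ.2])]
      linarith [hφ.2]
    · rw [abs_of_nonpos (by linarith [hφ.2])]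
      linarith [hφ.1]
  have e2 : ∫ φ in c..(Real.pi / 2), arcH t φ = 0 := by
    rw [intervalIntegral.integral_of_le hc1]
    apply setIntegral_eq_zero_of_forall_eq_zero
    intro φ hφ
    apply hout
    · rw [abs_of_nonneg (by linarith [hφ.1])]
      exact hφ.1
    · rw [abs_of_nonneg (by linarith [hφ.1])]
      exact hφ.2
  have e3 : ∫ φ in (-c)..c, arcH t φ ≤ 2 * c := by
    have h1 : ∫ φ in (-c)..c, arcH t φ ≤ ∫ φ in (-c)..c, (1 : ℝ) := by
      apply intervalIntegral.integral_mono_on (by linarith) (arcH_int t _ _)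
        intervalIntegrable_const
      intro φ _
      exact (arcH_bd t φ).2
    rw [intervalIntegral.integral_const, smul_eq_mul] at h1
    linarith
  rw [← intervalIntegral.integral_add_adjacent_intervals (arcH_int t _ (-c)) (arcH_int t _ _),
    ← intervalIntegral.integral_add_adjacent_intervals (arcH_int t (-c) c) (arcH_int t _ _),
    e1, e2]
  have : Real.pi * t = 2 * c := by rw [hc]; ring
  linarith

theorem arcH_full (t β : ℝ) (ht : 0 ≤ t) (ht1 : t ≤ 1) :
    ∫ θ in (0 : ℝ)..(2 * Real.pi), arcH t (θ - β) ≤ 2 * Real.pi * t := by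
  have hpi := Real.pi_pos
  rw [intervalIntegral.integral_comp_sub_right (fun φ => arcH t φ)]
  have hp2 : Function.Periodic (arcH t) (2 * Real.pi) := by
    have := (arcH_per t).nat_mul 2
    exact_mod_cast this
  have h1 : ∫ φ in (0 - β)..(2 * Real.pi - β), arcH t φ =
      ∫ φ in (-(Real.pi / 2))..(-(Real.pi / 2) + 2 * Real.pi), arcH t φ := by
    have := hp2.intervalIntegral_add_eq (0 - β) (-(Real.pi / 2))
    rw [← this]
    congr 1
    ring
  rw [h1, ← intervalIntegral.integral_add_adjacent_intervals (b := Real.pi / 2)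
    (arcH_int t _ _) (arcH_int t _ _)]
  have h2 : ∫ φ in (Real.pi / 2)..(-(Real.pi / 2) + 2 * Real.pi), arcH t φ =
      ∫ φ in (-(Real.pi / 2))..(Real.pi / 2), arcH t φ := by
    have h3 := (arcH_per t).intervalIntegral_add_eq (Real.pi / 2) (-(Real.pi / 2))
    have h4 : Real.pi / 2 + Real.pi = -(Real.pi / 2) + 2 * Real.pi := by ring
    have h5 : -(Real.pi / 2) + Real.pi = Real.pi / 2 := by ring
    rw [h4, h5] at h3
    exact h3
  rw [h2]
  have := arcH_half t ht ht1
  linarith

theorem arc_cr (β θ : ℝ) : cr (Complex.exp ((β : ℂ) * Complex.I))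
    (Complex.exp ((θ : ℂ) * Complex.I)) = Real.sin (θ - β) := by
  unfold cr
  rw [Complex.exp_ofReal_mul_I_re, Complex.exp_ofReal_mul_I_im, Complex.exp_ofReal_mul_I_re,
    Complex.exp_ofReal_mul_I_im, Real.sin_sub]
  ring

theorem arcT : T_ARC := by
  intro a t g ha ht hg hb hz
  have hpi := Real.pi_pos
  set β : ℝ := Complex.arg a with hβ
  have haβ : a = Complex.exp ((β : ℂ) * Complex.I) := by
    have := Complex.norm_mul_exp_arg_mul_I a
    rw [ha, Complex.ofReal_one, one_mul] at this
    exact this.symm
  set t' : ℝ := min t 1 with ht'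
  have ht0 : 0 ≤ t' := le_min ht zero_le_one
  have ht1 : t' ≤ 1 := min_le_right _ _
  have hgm : Measurable fun θ : ℝ => g (Complex.exp ((θ : ℂ) * Complex.I)) := by
    apply hg.comp
    fun_prop
  have key : ∫ θ in (0 : ℝ)..(2 * Real.pi), g (Complex.exp ((θ : ℂ) * Complex.I)) ≤
      ∫ θ in (0 : ℝ)..(2 * Real.pi), arcH t' (θ - β) := by
    apply intervalIntegral.integral_mono_on (by positivity)
    · have h1 : IntervalIntegrable (fun _ : ℝ => (1 : ℝ)) volume 0 (2 * Real.pi) :=
        intervalIntegrable_const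
      refine h1.mono_fun hgm.aestronglyMeasurable ?_
      refine Filter.Eventually.of_forall fun θ => ?_
      have h2 := hb (Complex.exp ((θ : ℂ) * Complex.I))
      beta_reduce
      rw [Real.norm_eq_abs, abs_of_nonneg h2.1, norm_one]
      exact h2.2
    · have h1 : IntervalIntegrable (fun _ : ℝ => (1 : ℝ)) volume 0 (2 * Real.pi) :=
        intervalIntegrable_const
      refine h1.mono_fun ((arcH_meas t').comp (measurable_id.sub_const β)).aestronglyMeasurable ?_
      refine Filter.Eventually.of_forall fun θ => ?_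
      have h2 := arcH_bd t' (θ - β)
      beta_reduce
      rw [Real.norm_eq_abs, abs_of_nonneg h2.1, norm_one]
      exact h2.2
    · intro θ _
      by_cases h : |Real.sin (θ - β)| ≤ t'
      · have : arcH t' (θ - β) = 1 := by
          unfold arcH
          rw [if_pos h]
        rw [this]
        exact (hb _).2
      · have h1 : arcH t' (θ - β) = 0 := by
          unfold arcH
          rw [if_neg h]
        rw [h1]
        rw [not_le] at h
        have h2 : t < |Real.sin (θ - β)| := by
          rcases min_lt_iff.1 h with h3 | h3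
          · exact h3
          · exact absurd h3 (not_lt.2 (Real.abs_sin_le_one _))
        rw [hz _ (Complex.norm_exp_ofReal_mul_I θ)]
        rw [haβ, arc_cr]
        exact h2
  have h6 := arcH_full t' β ht0 ht1
  have h7 : t' ≤ t := min_le_left _ _
  unfold av
  calc (2 * Real.pi)⁻¹ * ∫ θ in (0 : ℝ)..(2 * Real.pi), g (Complex.exp ((θ : ℂ) * Complex.I))
      ≤ (2 * Real.pi)⁻¹ * (2 * Real.pi * t') := by
        gcongr
        exact key.trans h6
    _ = t' := by field_simp
    _ ≤ t := h7

end Pool.Agent.H34.EN
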