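import Pool.Agent.H93.EN.Targets4

set_option autoImplicit false
set_option linter.unusedVariables false

namespace Pool.Agent.H34.EN

open MeasureTheory Set Metric Filter Topology Pool.Agent.H93.EN
open Pool.Agent.H93.BL hiding T_B1 T_B2 T_B3 T_SB T_SC
open scoped ContDiff

theorem u0_slice {Φ : ℂ → ℂ → ℝ} (hΦ : Bd Φ) (w : ℂ) : Measurable fun y => Φ y w :=
  hΦ.1.comp (measurable_id.prodMk measurable_const)

theorem u0_on {Φ : ℂ → ℂ → ℝ} (hΦ : Bd Φ) (x w : ℂ) (δ : ℝ) :
    IntegrableOn (fun y => Φ y w) (ball x δ) := by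
  refine Measure.integrableOn_of_bounded (M := 1) measure_ball_lt_top.ne
    (u0_slice hΦ w).aestronglyMeasurable ?_
  refine Filter.Eventually.of_forall fun y => ?_
  have h2 := hΦ.2.1 y w
  rw [Real.norm_eq_abs, abs_of_nonneg h2.1]
  exact h2.2

theorem u0_nn {Φ : ℂ → ℂ → ℝ} (hΦ : Bd Φ) (x w : ℂ) (δ : ℝ) :
    0 ≤ ∫ y in ball x δ, Φ y w :=
  integral_nonneg fun y => (hΦ.2.1 y w).1

theorem u0_vol {Φ : ℂ → ℂ → ℝ} (hΦ : Bd Φ) (x w : ℂ) (δ : ℝ) (hδ : 0 < δ) :
    ∫ y in ball x δ, Φ y w ≤ 4 * δ ^ 2 := by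
  have h1 : ∫ y in ball x δ, Φ y w ≤ ∫ y in ball x δ, (1 : ℝ) := by
    apply setIntegral_mono_on (u0_on hΦ x w δ) _ measurableSet_ball
    · intro y _
      exact (hΦ.2.1 y w).2
    · exact integrableOn_const measure_ball_lt_top.ne
  rw [setIntegral_const, smul_eq_mul, mul_one, measureReal_def, Complex.volume_ball] at h1
  rw [ENNReal.toReal_mul, ENNReal.toReal_pow, ENNReal.toReal_ofReal hδ.le] at h1
  have h2 : (NNReal.pi : ENNReal).toReal = Real.pi := rfl
  rw [h2] at h1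
  have h3 := Real.pi_lt_four
  have h4 : δ ^ 2 * Real.pi ≤ δ ^ 2 * 4 := by gcongr
  linarith

/-- the mollification with a kernel supported in the disc of radius δ -/
theorem u0_ker {E : Type} [NormedAddCommGroup E] [NormedSpace ℝ E] {Φ : ℂ → ℂ → ℝ} (hΦ : Bd Φ)
    (K : ℂ → E) (δ M : ℝ) (hK0 : ∀ x, δ ≤ ‖x‖ → K x = 0) (hKM : ∀ x, ‖K x‖ ≤ M) (x w : ℂ) :
    ‖∫ y, Φ y w • K (x - y)‖ ≤ M * ∫ y in ball x δ, Φ y w := by
  have h1 : M * ∫ y in ball x δ, Φ y w = ∫ y, (ball x δ).indicator (fun y => M * Φ y w) y := by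
    rw [integral_indicator measurableSet_ball, integral_const_mul]
  rw [h1]
  refine norm_integral_le_of_norm_le ?_ (Filter.Eventually.of_forall fun y => ?_)
  · rw [integrable_indicator_iff measurableSet_ball]
    exact (u0_on hΦ x w δ).const_mul M
  · have h2 := hΦ.2.1 y w
    by_cases hy : y ∈ ball x δ
    · rw [indicator_of_mem hy, norm_smul, Real.norm_eq_abs, abs_of_nonneg h2.1, mul_comm]
      exact mul_le_mul_of_nonneg_right (hKM _) h2.1
    · rw [indicator_of_notMem hy]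
      rw [mem_ball, dist_comm, dist_eq_norm, not_lt] at hy
      rw [hK0 _ hy, smul_zero, norm_zero]

theorem u0_Mlm {Φ : ℂ → ℂ → ℝ} (hΦ : Bd Φ) (δ : ℝ) (hc : Continuous (chi δ)) :
    Measurable (Function.uncurry (Ml Φ δ)) := by
  have h1 : StronglyMeasurable (Function.uncurry fun (p : ℂ × ℂ) (y : ℂ) =>
      chi δ (p.1 - y) * Φ y p.2) := by
    apply Measurable.stronglyMeasurable
    apply Measurable.mul
    · apply hc.measurable.comp
      fun_prop
    · exact hΦ.1.comp (measurable_snd.prodMk (measurable_snd.comp measurable_fst))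
  exact h1.integral_prod_right.measurable

theorem u0_Nlm {Φ : ℂ → ℂ → ℝ} (hΦ : Bd Φ) (δ : ℝ) (hc : Continuous (gchi δ)) :
    Measurable (Function.uncurry (Nl Φ δ)) := by
  have h1 : StronglyMeasurable (Function.uncurry fun (p : ℂ × ℂ) (y : ℂ) =>
      gchi δ (p.1 - y) * (Φ y p.2 : ℂ)) := by
    apply Measurable.stronglyMeasurable
    apply Measurable.mul
    · apply hc.measurable.comp
      fun_prop
    · apply Complex.measurable_ofReal.comp
      exact hΦ.1.comp (measurable_snd.prodMk (measurable_snd.comp measurable_fst))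
  exact h1.integral_prod_right.measurable

theorem u0_Hlm {Φ : ℂ → ℂ → ℝ} (δ : ℝ) (h : Measurable (Function.uncurry (Nl Φ δ))) :
    Measurable (Function.uncurry (Hl Φ δ)) := by
  have h1 : Measurable fun p : ℂ × ℂ => (Function.uncurry (Nl Φ δ) p *
      (starRingEnd ℂ) (Complex.I * p.2)).re := by
    apply Complex.measurable_re.comp
    apply h.mul
    apply Complex.continuous_conj.measurable.comp
    fun_prop
  exact h1

theorem u0 (h1 : T_CH) : T_U0 := by
  obtain ⟨-, -, -, -, C₀, hC₀, hch⟩ := h1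
  refine ⟨4 * C₀, by positivity, ?_⟩
  intro Φ hΦ δ hδ
  obtain ⟨hsm, hcs, hb, hz, hint, hrad, hgc, hgb, hgz⟩ := hch δ hδ
  have hcc : Continuous (chi δ) := hsm.continuous
  have hN := u0_Nlm hΦ δ hgc
  refine ⟨u0_Mlm hΦ δ hcc, hN, u0_Hlm δ hN, ?_⟩
  intro x w
  have hMl : Ml Φ δ x w = ∫ y, Φ y w • chi δ (x - y) := by
    unfold Ml
    refine integral_congr_ae (Filter.Eventually.of_forall fun y => ?_)
    beta_reduce
    rw [smul_eq_mul, mul_comm]
  have hNl : Nl Φ δ x w = ∫ y, Φ y w • gchi δ (x - y) := by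
    unfold Nl
    refine integral_congr_ae (Filter.Eventually.of_forall fun y => ?_)
    beta_reduce
    rw [Complex.real_smul, mul_comm]
  have hnn := u0_nn hΦ x w δ
  have hvol := u0_vol hΦ x w δ hδ
  have hchn : ∀ z, ‖chi δ z‖ ≤ C₀ / δ ^ 2 := by
    intro z
    rw [Real.norm_eq_abs, abs_of_nonneg (hb z).1]
    exact (hb z).2
  have hM1 : ‖Ml Φ δ x w‖ ≤ C₀ / δ ^ 2 * ∫ y in ball x δ, Φ y w := by
    rw [hMl]
    exact u0_ker hΦ (chi δ) δ _ hz hchn x w
  have hN1 : ‖Nl Φ δ x w‖ ≤ C₀ / δ ^ 3 * ∫ y in ball x δ, Φ y w := by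
    rw [hNl]
    exact u0_ker hΦ (gchi δ) δ _ hgz hgb x w
  have hchi : Integrable (chi δ) := hcc.integrable_of_hasCompactSupport hcs
  refine ⟨?_, ?_, ?_, ?_, ?_, ?_⟩
  · unfold Ml
    exact integral_nonneg fun y => mul_nonneg (hb _).1 (hΦ.2.1 y w).1
  · have h2 : ∫ y, chi δ (x - y) = 1 := by
      rw [integral_sub_left_eq_self]
      exact hint
    rw [← h2]
    unfold Ml
    have hi : Integrable fun y => chi δ (x - y) := hchi.comp_sub_left x
    refine integral_mono ?_ hi fun y => ?_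
    · refine hi.mono ?_ (Filter.Eventually.of_forall fun y => ?_)
      · apply Measurable.aestronglyMeasurable
        apply Measurable.mul
        · apply hcc.measurable.comp
          fun_prop
        · exact u0_slice hΦ w
      · have h3 := hΦ.2.1 y w
        rw [norm_mul, Real.norm_eq_abs (Φ y w), abs_of_nonneg h3.1]
        exact mul_le_of_le_one_right (norm_nonneg _) h3.2
    · exact mul_le_of_le_one_right (hb _).1 (hΦ.2.1 y w).2
  · calc ‖Nl Φ δ x w‖ ≤ C₀ / δ ^ 3 * ∫ y in ball x δ, Φ y w := hN1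
      _ ≤ C₀ / δ ^ 3 * (4 * δ ^ 2) := by gcongr
      _ = 4 * C₀ / δ := by field_simp
  · intro hw
    unfold Hl
    refine (Complex.abs_re_le_norm _).trans ?_
    rw [norm_mul, Complex.norm_conj, norm_mul, Complex.norm_I, hw, one_mul, mul_one]
  · refine (le_abs_self _).trans (hM1.trans ?_)
    apply mul_le_mul_of_nonneg_right _ hnn
    gcongr
    linarith
  · refine hN1.trans ?_
    apply mul_le_mul_of_nonneg_right _ hnn
    gcongr
    linarith

end Pool.Agent.H34.EN
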